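import Mathlib

set_option autoImplicit false

/-!
# Divisibility of the self-convolution of `C(6k,3k) C(3k,k)`

`8 (2n-1) C(3n,n)` divides `S_n = ∑_j a_j a_{n-j}` with `a_k = C(6k,3k) C(3k,k)`.

For every odd prime `p` the `p`-part of `(2n-1) C(3n,n)` divides every single term `a_k a_{n-k}`.
For `p ≥ 5` this is an inequality between integer parts. For `p = 3` one has
`v_3(a_k) = k - 2 v_3(k!)` and `v_3(C(3n,n)) + v_3(C(2n,n)) = n - 2 v_3(n!)`, and `2n-1` divides
`C(2n,n)`. For `p = 2` one has `v_2(a_k) = 2 s_2(k)` and `v_2(C(3n,n)) = 2 s_2(n) - s_2(3n)`, where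
`s_2(3n) ≥ 2`; if `s_2(3n) = 2` one more factor `2` comes from the symmetry `k ↔ n-k`.
-/

open Finset
open scoped Nat

namespace Pool.Agent.Results.MP_cbedb1_nt.SelfConvolution

/-- `a_k = C(6k,3k) C(3k,k)` -/
def a (k : ℕ) : ℕ := (6 * k).choose (3 * k) * (3 * k).choose k

/-- `S_n = ∑_{j=0}^n a_j a_{n-j}` -/
def S (n : ℕ) : ℕ := ∑ j ∈ range (n + 1), a j * a (n - j)

theorem a_fact (k : ℕ) : a k * ((3 * k)! * (2 * k)! * k !) = (6 * k)! := by
  have h1 := Nat.choose_mul_factorial_mul_factorial (show 3 * k ≤ 6 * k by omega)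
  have h2 := Nat.choose_mul_factorial_mul_factorial (show k ≤ 3 * k by omega)
  rw [show 6 * k - 3 * k = 3 * k by omega] at h1
  rw [show 3 * k - k = 2 * k by omega] at h2
  calc a k * ((3 * k)! * (2 * k)! * k !)
      = (6 * k).choose (3 * k) * (3 * k)! * ((3 * k).choose k * k ! * (2 * k)!) := by
        rw [a]; ring
    _ = (6 * k)! := by rw [h2, h1]

theorem choose_fact (n : ℕ) : (3 * n).choose n * (n ! * (2 * n)!) = (3 * n)! := by
  have h2 := Nat.choose_mul_factorial_mul_factorial (show n ≤ 3 * n by omega)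
  rw [show 3 * n - n = 2 * n by omega] at h2
  rw [← h2]
  ring

theorem a_pos (k : ℕ) : 0 < a k := Nat.mul_pos (Nat.choose_pos (by omega)) (Nat.choose_pos (by omega))

section val

variable {p : ℕ} [hp : Fact p.Prime]

theorem val_a (k : ℕ) : padicValNat p (a k) + (padicValNat p (3 * k)! + padicValNat p (2 * k)! +
    padicValNat p k !) = padicValNat p (6 * k)! := by
  rw [← a_fact, padicValNat.mul (a_pos k).ne' (by positivity), padicValNat.mul (by positivity)
    (by positivity), padicValNat.mul (by positivity) (by positivity)]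

theorem val_c (n : ℕ) : padicValNat p ((3 * n).choose n) + (padicValNat p n ! +
    padicValNat p (2 * n)!) = padicValNat p (3 * n)! := by
  rw [← choose_fact, padicValNat.mul (Nat.choose_pos (by omega)).ne' (by positivity),
    padicValNat.mul (by positivity) (by positivity)]

theorem val_odd {n : ℕ} (hn : 1 ≤ n) : padicValNat p (2 * n - 1) + padicValNat p (2 * n - 2)! =
    padicValNat p (2 * n - 1)! := by
  rw [← padicValNat.mul (by omega) (by positivity)]
  congr 1
  obtain ⟨m, rfl⟩ : ∃ m, n = m + 1 := ⟨n - 1, by omega⟩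
  rw [show 2 * (m + 1) - 1 = 2 * m + 1 by omega, show 2 * (m + 1) - 2 = 2 * m by omega,
    Nat.factorial_succ]

/-- the inequality between integer parts -/
theorem floor_ineq {q k l : ℕ} (hq : 4 ≤ q) (hn : 1 ≤ k + l) :
    (2 * (k + l) - 1) / q + 3 * (k + l) / q + (3 * k / q + 2 * k / q + k / q) +
      (3 * l / q + 2 * l / q + l / q) ≤
    6 * k / q + 6 * l / q + ((k + l) / q + 2 * (k + l) / q + (2 * (k + l) - 2) / q) := by
  have hq0 : 0 < q := by omega
  -- everything in terms of a = ⌊6x/q⌋, b = ⌊6y/q⌋, c = ⌊6(x+y)/q⌋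
  have key : ∀ m, 3 * m / q = 6 * m / q / 2 ∧ 2 * m / q = 6 * m / q / 3 ∧ m / q = 6 * m / q / 6 := by
    intro m
    refine ⟨?_, ?_, ?_⟩
    · rw [Nat.div_div_eq_div_mul, mul_comm q 2, show 6 * m = 2 * (3 * m) by ring,
        Nat.mul_div_mul_left _ _ (by norm_num)]
    · rw [Nat.div_div_eq_div_mul, mul_comm q 3, show 6 * m = 3 * (2 * m) by ring,
        Nat.mul_div_mul_left _ _ (by norm_num)]
    · rw [Nat.div_div_eq_div_mul, mul_comm q 6, Nat.mul_div_mul_left _ _ (by norm_num)]
  obtain ⟨k3, k2, k1⟩ := key k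
  obtain ⟨l3, l2, l1⟩ := key l
  obtain ⟨n3, n2, n1⟩ := key (k + l)
  rw [k3, k2, k1, l3, l2, l1, n3, n2, n1]
  have hA := Nat.div_add_mod (6 * k) q
  have hB := Nat.div_add_mod (6 * l) q
  have hC := Nat.div_add_mod (6 * (k + l)) q
  have hA' := Nat.mod_lt (6 * k) hq0
  have hB' := Nat.mod_lt (6 * l) hq0
  have hC' := Nat.mod_lt (6 * (k + l)) hq0
  set A := 6 * k / q with hAd
  set B := 6 * l / q with hBd
  set C := 6 * (k + l) / q with hCd
  have hCAB : C = A + B ∨ C = A + B + 1 := by
    rw [hCd, mul_add, Nat.add_div hq0]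
    split_ifs
    · right; rfl
    · left; rfl
  by_cases hd : q ∣ 2 * (k + l) - 1
  · obtain ⟨m, hm⟩ := hd
    have e1 : (2 * (k + l) - 1) / q = m := by rw [hm, Nat.mul_div_cancel_left _ hq0]
    have e2 : C = 3 * m := by
      have : 6 * (k + l) = q * (3 * m) + 3 := by
        have : 2 * (k + l) = q * m + 1 := by omega
        calc 6 * (k + l) = 3 * (2 * (k + l)) := by ring
          _ = q * (3 * m) + 3 := by rw [this]; ring
      rw [hCd, this, Nat.mul_add_div hq0, Nat.div_eq_of_lt (by omega), add_zero]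
    have hmodd : m % 2 = 1 := by
      by_contra hc
      have : (q * m) % 2 = 0 := by
        rw [Nat.mul_mod, show m % 2 = 0 by omega]; simp
      omega
    have e3 : (2 * (k + l) - 2) / q = m - 1 := by
      have : 2 * (k + l) - 2 = q * (m - 1) + (q - 1) := by
        have h5 : q * m = q * (m - 1) + q := by
          obtain ⟨m', rfl⟩ : ∃ m', m = m' + 1 := ⟨m - 1, by omega⟩
          rw [Nat.add_sub_cancel]; ring
        omega
      rw [this, Nat.mul_add_div hq0, Nat.div_eq_of_lt (by omega), add_zero]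
    rw [e1, e3]
    omega
  · have e1 : (2 * (k + l) - 1) / q = (2 * (k + l) - 2) / q := by
      have h1 : 2 * (k + l) - 1 = (2 * (k + l) - 2) + 1 := by omega
      rw [h1, Nat.succ_div, if_neg, add_zero]
      rwa [← h1]
    rw [e1]
    omega

theorem val_le_big (h5 : 4 ≤ p) {k l : ℕ} (hn : 1 ≤ k + l) :
    padicValNat p ((2 * (k + l) - 1) * (3 * (k + l)).choose (k + l)) ≤
      padicValNat p (a k * a l) := by
  rw [padicValNat.mul (by omega) (Nat.choose_pos (by omega)).ne',
    padicValNat.mul (a_pos k).ne' (a_pos l).ne']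
  have h1 := val_a (p := p) k
  have h2 := val_a (p := p) l
  have h3 := val_c (p := p) (k + l)
  have h4 := val_odd (p := p) hn
  have hb : ∀ m, m ≤ 6 * (k + l) → padicValNat p m ! =
      ∑ i ∈ Ico 1 (Nat.log p (6 * (k + l)) + 1), m / p ^ i := by
    intro m hm
    apply padicValNat_factorial
    exact Nat.lt_succ_of_le (Nat.log_mono_right hm)
  have key : padicValNat p (2 * (k + l) - 1)! + padicValNat p (3 * (k + l))! +
      (padicValNat p (3 * k)! + padicValNat p (2 * k)! + padicValNat p k !) +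
      (padicValNat p (3 * l)! + padicValNat p (2 * l)! + padicValNat p l !) ≤
      padicValNat p (6 * k)! + padicValNat p (6 * l)! + (padicValNat p (k + l)! +
        padicValNat p (2 * (k + l))! + padicValNat p (2 * (k + l) - 2)!) := by
    rw [hb _ (by omega), hb _ (by omega), hb _ (by omega), hb _ (by omega), hb _ (by omega),
      hb _ (by omega), hb _ (by omega), hb _ (by omega), hb _ (by omega), hb _ (by omega),
      hb _ (by omega), hb _ (by omega), hb _ (by omega)]
    simp only [← Finset.sum_add_distrib]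
    refine Finset.sum_le_sum fun i hi => ?_
    rw [mem_Ico] at hi
    apply floor_ineq _ hn
    calc 4 ≤ p := h5
      _ = p ^ 1 := (pow_one p).symm
      _ ≤ p ^ i := Nat.pow_le_pow_right (by omega) hi.1
  omega

end val

theorem val_fact_add {p : ℕ} [hp : Fact p.Prime] (k l : ℕ) :
    padicValNat p k ! + padicValNat p l ! ≤ padicValNat p (k + l)! := by
  have h1 := Nat.add_choose_mul_factorial_mul_factorial k l
  rw [← h1, padicValNat.mul (Nat.mul_pos (Nat.choose_pos (by omega)) (by positivity)).ne'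
    (by positivity), padicValNat.mul (Nat.choose_pos (by omega)).ne' (by positivity)]
  omega

/-! ### The prime 3 -/

instance fact3 : Fact (Nat.Prime 3) := ⟨Nat.prime_three⟩

theorem val3_a (k : ℕ) : padicValNat 3 (a k) + 2 * padicValNat 3 k ! = k := by
  have h := val_a (p := 3) k
  have h1 : padicValNat 3 (3 * (2 * k))! = padicValNat 3 (2 * k)! + 2 * k :=
    padicValNat_factorial_mul _
  have h2 : padicValNat 3 (3 * k)! = padicValNat 3 k ! + k := padicValNat_factorial_mul _
  rw [show 6 * k = 3 * (2 * k) by ring, h1, h2] at h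
  omega

theorem odd_dvd_centralBinom {n : ℕ} (hn : 1 ≤ n) : (2 * n - 1) ∣ n.centralBinom := by
  obtain ⟨m, rfl⟩ : ∃ m, n = m + 1 := ⟨n - 1, by omega⟩
  have h := Nat.succ_mul_centralBinom_succ m
  rw [show 2 * (m + 1) - 1 = 2 * m + 1 by omega]
  have h2 : (2 * m + 1) ∣ (m + 1) * (m + 1).centralBinom := by
    rw [h]
    exact ⟨2 * m.centralBinom, by ring⟩
  refine Nat.Coprime.dvd_of_dvd_mul_left ?_ h2
  have h3 : Nat.Coprime (2 * m + 1) (2 * (m + 1)) := by
    rw [show 2 * (m + 1) = (2 * m + 1) + 1 by ring]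
    simp
  exact Nat.Coprime.coprime_mul_left_right h3

theorem val3_le {k l : ℕ} (hn : 1 ≤ k + l) :
    padicValNat 3 ((2 * (k + l) - 1) * (3 * (k + l)).choose (k + l)) ≤
      padicValNat 3 (a k * a l) := by
  rw [padicValNat.mul (by omega) (Nat.choose_pos (by omega)).ne',
    padicValNat.mul (a_pos k).ne' (a_pos l).ne']
  have h1 := val3_a k
  have h2 := val3_a l
  have h3 := val_c (p := 3) (k + l)
  have h4 : padicValNat 3 (3 * (k + l))! = padicValNat 3 (k + l)! + (k + l) :=
    padicValNat_factorial_mul _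
  have h5 := val_fact_add (p := 3) k l
  have h6 : padicValNat 3 (2 * (k + l) - 1) ≤ padicValNat 3 (k + l).centralBinom := by
    rw [← padicValNat_dvd_iff_le (Nat.centralBinom_ne_zero _)]
    exact pow_padicValNat_dvd.trans (odd_dvd_centralBinom hn)
  have h7 : padicValNat 3 (k + l).centralBinom + 2 * padicValNat 3 (k + l)! =
      padicValNat 3 (2 * (k + l))! := by
    have h8 := Nat.choose_mul_factorial_mul_factorial (show k + l ≤ 2 * (k + l) by omega)
    rw [show 2 * (k + l) - (k + l) = k + l by omega, ← Nat.centralBinom_eq_two_mul_choose] at h8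
    rw [← h8, padicValNat.mul (mul_ne_zero (Nat.centralBinom_ne_zero _) (by positivity))
      (by positivity), padicValNat.mul (Nat.centralBinom_ne_zero _) (by positivity)]
    ring
  omega

/-! ### The prime 2 -/

theorem val2_a (k : ℕ) : padicValNat 2 (a k) + 2 * padicValNat 2 k ! = 2 * k := by
  have h := val_a (p := 2) k
  have h1 : padicValNat 2 (2 * (3 * k))! = padicValNat 2 (3 * k)! + 3 * k :=
    padicValNat_factorial_mul _
  have h2 : padicValNat 2 (2 * k)! = padicValNat 2 k ! + k := padicValNat_factorial_mul _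
  rw [show 6 * k = 2 * (3 * k) by ring, h1, h2] at h
  omega

theorem val2_odd (m : ℕ) : padicValNat 2 (2 * m + 1)! = padicValNat 2 m ! + m := by
  rw [Nat.factorial_succ, padicValNat.mul (by omega) (by positivity), padicValNat_factorial_mul,
    padicValNat.eq_zero_of_not_dvd (by omega)]
  omega

theorem val2_even (m : ℕ) : padicValNat 2 (2 * m)! = padicValNat 2 m ! + m :=
  padicValNat_factorial_mul _

theorem val2_lt : ∀ m : ℕ, 1 ≤ m → padicValNat 2 m ! + 1 ≤ m := by
  intro m
  induction m using Nat.strong_induction_on with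
  | _ m ih =>
    intro hm
    obtain ⟨r, rfl | rfl⟩ := Nat.even_or_odd' m
    · rw [val2_even]
      have := ih r (by omega) (by omega)
      omega
    · rw [val2_odd]
      rcases Nat.eq_zero_or_pos r with rfl | hr
      · simp
      · have := ih r (by omega) hr
        omega

theorem val2_three : ∀ m : ℕ, 1 ≤ m → 3 ∣ m → padicValNat 2 m ! + 2 ≤ m := by
  intro m
  induction m using Nat.strong_induction_on with
  | _ m ih =>
    intro hm h3
    obtain ⟨r, rfl | rfl⟩ := Nat.even_or_odd' m
    · rw [val2_even]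
      have := ih r (by omega) (by omega) (by omega)
      omega
    · rw [val2_odd]
      have := val2_lt r (by omega)
      omega

theorem two_dvd_sum (n : ℕ) (f : ℕ → ℕ) (hsym : ∀ j ≤ n, f (n - j) = f j)
    (hmid : ∀ j, n - j = j → j ≤ n → 2 ∣ f j) : 2 ∣ ∑ j ∈ range (n + 1), f j := by
  rw [← CharP.cast_eq_zero_iff (ZMod 2) 2, Nat.cast_sum]
  refine Finset.sum_involution (fun j _ => n - j) ?_ ?_ ?_ ?_
  · intro j hj
    rw [mem_range] at hj
    rw [hsym j (by omega)]
    exact CharTwo.add_self_eq_zero _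
  · intro j hj hne h
    rw [mem_range] at hj
    exact hne ((CharP.cast_eq_zero_iff (ZMod 2) 2 _).2 (hmid j h (by omega)))
  · intro j hj
    rw [mem_range] at hj ⊢
    omega
  · intro j hj
    rw [mem_range] at hj
    omega

theorem term2 {n j : ℕ} (hj : j ≤ n) : 2 ^ (2 * (n - padicValNat 2 n !)) ∣ a j * a (n - j) := by
  rw [padicValNat_dvd_iff_le (mul_ne_zero (a_pos _).ne' (a_pos _).ne'),
    padicValNat.mul (a_pos _).ne' (a_pos _).ne']
  have h1 := val2_a j
  have h2 := val2_a (n - j)
  have h3 := val_fact_add (p := 2) j (n - j)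
  rw [show j + (n - j) = n by omega] at h3
  omega

theorem S_two {n : ℕ} (hn : 1 ≤ n) : 2 ^ (2 * (n - padicValNat 2 n !) + 1) ∣ S n := by
  set e := 2 * (n - padicValNat 2 n !) with he
  have h1 : S n = 2 ^ e * ∑ j ∈ range (n + 1), a j * a (n - j) / 2 ^ e := by
    rw [Finset.mul_sum, S]
    refine Finset.sum_congr rfl fun j hj => ?_
    rw [mem_range] at hj
    rw [Nat.mul_div_cancel' (term2 (by omega))]
  rw [h1, pow_succ]
  refine mul_dvd_mul_left _ (two_dvd_sum n _ ?_ ?_)
  · intro j hj
    rw [show n - (n - j) = j by omega, mul_comm]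
  · intro j hj hjn
    have h2 : n = 2 * j := by omega
    have h3 : 2 ^ (e + 1) ∣ a j * a (n - j) := by
      rw [padicValNat_dvd_iff_le (mul_ne_zero (a_pos _).ne' (a_pos _).ne'), hj,
        padicValNat.mul (a_pos _).ne' (a_pos _).ne']
      have h4 := val2_a j
      have h5 := val2_even j
      rw [← h2] at h5
      have h6 := val2_lt j (by omega)
      omega
    rw [pow_succ] at h3
    obtain ⟨c, hc⟩ := h3
    rw [hc, mul_assoc, Nat.mul_div_cancel_left _ (by positivity)]
    exact dvd_mul_right _ _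

theorem val2_le {n : ℕ} (hn : 1 ≤ n) :
    2 ^ padicValNat 2 (8 * (2 * n - 1) * (3 * n).choose n) ∣ S n := by
  refine dvd_trans (pow_dvd_pow 2 ?_) (S_two hn)
  rw [padicValNat.mul (by omega) (Nat.choose_pos (by omega)).ne',
    padicValNat.mul (by omega) (by omega),
    padicValNat.eq_zero_of_not_dvd (show ¬ 2 ∣ 2 * n - 1 by omega),
    show (8 : ℕ) = 2 ^ 3 by norm_num, padicValNat.prime_pow]
  have h1 := val_c (p := 2) n
  have h2 := val2_even n
  have h3 := val2_three (3 * n) (by omega) (by omega)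
  have h4 := val2_lt n hn
  omega

/-- `8 (2n-1) C(3n,n)` divides `S_n` for every `n ≥ 1`. -/
theorem result : ∀ n : ℕ, 1 ≤ n → 8 * (2 * n - 1) * (3 * n).choose n ∣ S n := by
  intro n hn
  have hD : 8 * (2 * n - 1) * (3 * n).choose n ≠ 0 :=
    mul_ne_zero (mul_ne_zero (by norm_num) (by omega)) (Nat.choose_pos (by omega)).ne'
  rw [Nat.dvd_iff_prime_pow_dvd_dvd]
  intro p r hp hr
  have : Fact p.Prime := ⟨hp⟩
  have hr' : r ≤ padicValNat p (8 * (2 * n - 1) * (3 * n).choose n) :=
    (padicValNat_dvd_iff_le hD).1 hr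
  by_cases h2 : p = 2
  · subst h2
    exact (pow_dvd_pow 2 hr').trans (val2_le hn)
  · have h8 : padicValNat p (8 * (2 * n - 1) * (3 * n).choose n) =
        padicValNat p ((2 * n - 1) * (3 * n).choose n) := by
      rw [mul_assoc, padicValNat.mul (by norm_num)
        (mul_ne_zero (by omega) (Nat.choose_pos (by omega)).ne'),
        padicValNat.eq_zero_of_not_dvd, zero_add]
      intro h
      rw [show (8 : ℕ) = 2 ^ 3 by norm_num] at h
      exact h2 ((Nat.prime_dvd_prime_iff_eq hp Nat.prime_two).1 (hp.dvd_of_dvd_pow h))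
    refine Finset.dvd_sum fun j hj => ?_
    rw [mem_range] at hj
    rw [padicValNat_dvd_iff_le (mul_ne_zero (a_pos _).ne' (a_pos _).ne')]
    refine hr'.trans ?_
    rw [h8]
    have hjn : j + (n - j) = n := by omega
    by_cases h3 : p = 3
    · subst h3
      have := val3_le (k := j) (l := n - j) (by omega)
      rwa [hjn] at this
    · have h4 : 4 ≤ p := by
        have := hp.two_le
        omega
      have := val_le_big (p := p) h4 (k := j) (l := n - j) (by omega)
      rwa [hjn] at this

end Pool.Agent.Results.MP_cbedb1_nt.SelfConvolution
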